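import Mathlib
import Pool.Agent.Helper693.Core18

set_option autoImplicit false

namespace Pool.Agent.Results.MP_d6bcd1_co.ClosedWalks

open Matrix Finset

/-- `N` is the incidence matrix of a `(v,b,k,r)`-design: `N i j` is the number of plots of block
`j` that receive treatment `i`, every treatment is used on `r` plots, every block has `k` plots. -/
def IsDesign {v b : ℕ} (k r : ℕ) (N : Matrix (Fin v) (Fin b) ℕ) : Prop :=
  (∀ i, ∑ j, N i j = r) ∧ (∀ j, ∑ i, N i j = k)

/-- every entry of the incidence matrix is `0` or `1` -/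
def IsBinary {v b : ℕ} (N : Matrix (Fin v) (Fin b) ℕ) : Prop := ∀ i j, N i j = 0 ∨ N i j = 1

/-- adjacency matrix `N Nᵀ - r I` of the variety concurrence graph (diagonal entries count loops) -/
def concurrence {v b : ℕ} (r : ℕ) (N : Matrix (Fin v) (Fin b) ℕ) : Matrix (Fin v) (Fin v) ℤ :=
  (N.map (Nat.cast : ℕ → ℤ)) * (N.map (Nat.cast : ℕ → ℤ))ᵀ - (r : ℤ) • (1 : Matrix _ _ ℤ)

/-- the number `Γ_h` of closed walks of length `h` in the variety concurrence graph -/
def closedWalks {v b : ℕ} (r : ℕ) (N : Matrix (Fin v) (Fin b) ℕ) (h : ℕ) : ℤ :=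
  ((concurrence r N) ^ h).trace

/-- the variety concurrence graph is connected -/
def IsConnected {v b : ℕ} (r : ℕ) (N : Matrix (Fin v) (Fin b) ℕ) : Prop :=
  ∀ i j, Relation.ReflTransGen (fun x y => concurrence r N x y ≠ 0) i j

/-- the information matrix `C = r I - (1/k) N Nᵀ` -/
noncomputable def infoMatrix {v b : ℕ} (k r : ℕ) (N : Matrix (Fin v) (Fin b) ℕ) :
    Matrix (Fin v) (Fin v) ℝ :=
  (r : ℝ) • (1 : Matrix _ _ ℝ) -
    (1 / (k : ℝ)) • ((N.map (Nat.cast : ℕ → ℝ)) * (N.map (Nat.cast : ℕ → ℝ))ᵀ)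

/-- the sum of the reciprocals of the `v - 1` eigenvalues of `C` left after removing one copy of
the eigenvalue `0`; it is `⊤` if one of them is `0` -/
noncomputable def aValue {v b : ℕ} (k r : ℕ) (N : Matrix (Fin v) (Fin b) ℕ) : ENNReal :=
  (((infoMatrix k r N).charpoly.roots.erase 0).map (fun x => (ENNReal.ofReal x)⁻¹)).sum

/-- A-optimality among all `(v,b,k,r)`-designs -/
def IsAOptimal {v b : ℕ} (k r : ℕ) (N : Matrix (Fin v) (Fin b) ℕ) : Prop :=
  ∀ N' : Matrix (Fin v) (Fin b) ℕ, IsDesign k r N' → aValue k r N ≤ aValue k r N'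

/-- `N` minimizes sequentially `Γ_h`, `h = 2, 3, …`, among all `(v,b,k,r)`-designs -/
def MinimizesSequentially {v b : ℕ} (k r : ℕ) (N : Matrix (Fin v) (Fin b) ℕ) : Prop :=
  ∀ N' : Matrix (Fin v) (Fin b) ℕ, IsDesign k r N' →
    (∃ h, 2 ≤ h ∧ closedWalks r N' h ≠ closedWalks r N h) →
    ∃ t, 2 ≤ t ∧ (∀ h, 2 ≤ h → h < t → closedWalks r N' h = closedWalks r N h) ∧
      closedWalks r N t < closedWalks r N' t

/-- Paterson's conjecture -/
def PatersonConjecture : Prop :=
  ∀ v b k r : ℕ, 0 < v → 0 < b → 0 < k → 0 < r → v * r = b * k →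
    ∀ N : Matrix (Fin v) (Fin b) ℕ, IsDesign k r N → IsBinary N → IsConnected r N →
      (IsAOptimal k r N ↔ MinimizesSequentially k r N)

section general

variable {v b : ℕ}

lemma conc_apply (r : ℕ) (N : Matrix (Fin v) (Fin b) ℕ) (i j : Fin v) :
    concurrence r N i j = (∑ l, (N i l : ℤ) * (N j l : ℤ)) - if i = j then (r : ℤ) else 0 := by
  simp only [concurrence, Matrix.sub_apply, Matrix.mul_apply, Matrix.map_apply,
    Matrix.transpose_apply, Matrix.smul_apply, Matrix.one_apply, smul_eq_mul]
  split_ifs <;> simp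

lemma conc_symm (r : ℕ) (N : Matrix (Fin v) (Fin b) ℕ) (i j : Fin v) :
    concurrence r N i j = concurrence r N j i := by
  rw [conc_apply, conc_apply]
  congr 1
  · exact Finset.sum_congr rfl fun l _ => mul_comm _ _
  · simp only [eq_comm]

lemma conc_diag {k r : ℕ} {N : Matrix (Fin v) (Fin b) ℕ} (h : IsDesign k r N) (i : Fin v) :
    concurrence r N i i = ∑ l, (N i l : ℤ) * ((N i l : ℤ) - 1) := by
  rw [conc_apply, if_pos rfl]
  have h1 : ((∑ j, N i j : ℕ) : ℤ) = (r : ℤ) := by rw [h.1 i]
  push_cast at h1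
  rw [← h1, ← Finset.sum_sub_distrib]
  exact Finset.sum_congr rfl fun l _ => by ring

lemma mul_sub_one_nonneg (n : ℕ) : (0 : ℤ) ≤ (n : ℤ) * ((n : ℤ) - 1) := by
  rcases Nat.eq_zero_or_pos n with rfl | hn
  · simp
  · have : (1 : ℤ) ≤ n := by exact_mod_cast hn
    exact mul_nonneg (by linarith) (by linarith)

lemma conc_nonneg {k r : ℕ} {N : Matrix (Fin v) (Fin b) ℕ} (h : IsDesign k r N) (i j : Fin v) :
    0 ≤ concurrence r N i j := by
  by_cases hij : i = j
  · subst hij
    rw [conc_diag h]
    exact Finset.sum_nonneg fun l _ => mul_sub_one_nonneg _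
  · rw [conc_apply, if_neg hij, sub_zero]
    exact Finset.sum_nonneg fun l _ => by positivity

lemma conc_row {k r : ℕ} {N : Matrix (Fin v) (Fin b) ℕ} (h : IsDesign k r N) (i : Fin v) :
    ∑ j, concurrence r N i j = (r : ℤ) * ((k : ℤ) - 1) := by
  simp_rw [conc_apply]
  rw [Finset.sum_sub_distrib, Finset.sum_comm]
  have h2 : ∀ l, ∑ j, (N i l : ℤ) * (N j l : ℤ) = (N i l : ℤ) * k := by
    intro l
    rw [← Finset.mul_sum]
    have h1 : ((∑ j, N j l : ℕ) : ℤ) = (k : ℤ) := by rw [h.2 l]
    push_cast at h1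
    rw [h1]
  simp_rw [h2]
  rw [← Finset.sum_mul]
  have h1 : ((∑ j, N i j : ℕ) : ℤ) = (r : ℤ) := by rw [h.1 i]
  push_cast at h1
  rw [h1]
  simp
  ring

lemma walks_two (r : ℕ) (N : Matrix (Fin v) (Fin b) ℕ) :
    closedWalks r N 2 = ∑ i, ∑ j, (concurrence r N i j) ^ 2 := by
  rw [closedWalks, pow_two, Matrix.trace]
  refine Finset.sum_congr rfl fun i _ => ?_
  rw [Matrix.diag_apply, Matrix.mul_apply]
  refine Finset.sum_congr rfl fun j _ => ?_
  rw [conc_symm r N j i, sq]

lemma walks_nonneg {k r : ℕ} {N : Matrix (Fin v) (Fin b) ℕ} (h : IsDesign k r N) (m : ℕ) :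
    0 ≤ closedWalks r N m := by
  have hp : ∀ m i j, 0 ≤ ((concurrence r N) ^ m) i j := by
    intro m
    induction m with
    | zero => intro i j; by_cases hij : i = j <;> simp [hij]
    | succ m ih =>
      intro i j
      rw [pow_succ, Matrix.mul_apply]
      exact Finset.sum_nonneg fun l _ => mul_nonneg (ih i l) (conc_nonneg h l j)
  rw [closedWalks, Matrix.trace]
  exact Finset.sum_nonneg fun i _ => hp m i i

/-- there are only finitely many designs -/
lemma finite_designs (k r : ℕ) : {N : Matrix (Fin v) (Fin b) ℕ | IsDesign k r N}.Finite := by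
  have hfin : (Set.pi Set.univ (fun _ : Fin v => Set.pi Set.univ
      (fun _ : Fin b => Set.Iic r))).Finite :=
    Set.Finite.pi fun _ => Set.Finite.pi fun _ => Set.finite_Iic r
  refine hfin.subset ?_
  intro N hN
  simp only [Set.mem_pi, Set.mem_univ, true_implies, Set.mem_Iic]
  intro i j
  rw [← hN.1 i]
  exact Finset.single_le_sum (fun l _ => Nat.zero_le _) (mem_univ j)

/-- a sequential minimizer exists as soon as there is a design -/
lemma exists_minimizer (k r : ℕ) (N0 : Matrix (Fin v) (Fin b) ℕ) (h0 : IsDesign k r N0) :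
    ∃ N : Matrix (Fin v) (Fin b) ℕ, IsDesign k r N ∧ MinimizesSequentially k r N := by
  let f : Matrix (Fin v) (Fin b) ℕ → Lex (ℕ → ℤ) := fun N => toLex fun h => closedWalks r N (h + 2)
  obtain ⟨N, hN, hmin⟩ := Set.exists_min_image _ f (finite_designs (v := v) (b := b) k r) ⟨N0, h0⟩
  refine ⟨N, hN, ?_⟩
  intro N' hN' ⟨h, hh2, hne⟩
  have hle := hmin N' hN'
  have hne' : f N ≠ f N' := by
    intro heq
    have := congrFun (congrArg ofLex heq) (h - 2)
    simp only [f, ofLex_toLex] at this
    rw [Nat.sub_add_cancel hh2] at this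
    exact hne this.symm
  have hlt : f N < f N' := lt_of_le_of_ne hle hne'
  obtain ⟨t, ht1, ht2⟩ := hlt
  refine ⟨t + 2, by omega, ?_, ht2⟩
  intro m hm2 hmt
  have := ht1 (m - 2) (by omega)
  simp only [f] at this
  have h2 : closedWalks r N (m - 2 + 2) = closedWalks r N' (m - 2 + 2) := this
  rw [Nat.sub_add_cancel hm2] at h2
  exact h2.symm

end general

/-- for a `(18,63,2,7)`-design the number of closed walks of length two is at least 126 -/
lemma walks_two_ge {N : Matrix (Fin 18) (Fin 63) ℕ} (h : IsDesign 2 7 N) :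
    126 ≤ closedWalks 7 N 2 := by
  rw [walks_two]
  have h1 : ∑ i, ∑ j, concurrence 7 N i j = 126 := by
    simp_rw [conc_row h]; simp
  rw [← h1]
  refine Finset.sum_le_sum fun i _ => Finset.sum_le_sum fun j _ => ?_
  have := conc_nonneg h i j
  nlinarith [this, mul_sub_one_nonneg (concurrence 7 N i j).toNat, Int.toNat_of_nonneg this]

lemma good_of_walks {N : Matrix (Fin 18) (Fin 63) ℕ} (h : IsDesign 2 7 N)
    (h2 : closedWalks 7 N 2 = 126) (h3 : closedWalks 7 N 3 = 0) :
    Helper693.Core18.Good (concurrence 7 N) := by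
  have hle : ∀ i j, concurrence 7 N i j ≤ (concurrence 7 N i j) ^ 2 := by
    intro i j
    have := conc_nonneg h i j
    nlinarith [this, mul_sub_one_nonneg (concurrence 7 N i j).toNat, Int.toNat_of_nonneg this]
  have h1 : ∑ i, ∑ j, concurrence 7 N i j = 126 := by
    simp_rw [conc_row h]; simp
  have heq : ∀ i j, concurrence 7 N i j = (concurrence 7 N i j) ^ 2 := by
    rw [walks_two] at h2
    have hsum : ∑ i, ∑ j, ((concurrence 7 N i j) ^ 2 - concurrence 7 N i j) = 0 := by
      simp only [Finset.sum_sub_distrib]; rw [h1, h2]; norm_num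
    have e1 := (Finset.sum_eq_zero_iff_of_nonneg fun i _ => Finset.sum_nonneg fun j _ =>
      sub_nonneg.2 (hle i j)).1 hsum
    intro i j
    have e2 := (Finset.sum_eq_zero_iff_of_nonneg fun j _ => sub_nonneg.2 (hle i j)).1
      (e1 i (mem_univ _)) j (mem_univ _)
    linarith
  have h01 : ∀ i j, concurrence 7 N i j = 0 ∨ concurrence 7 N i j = 1 := by
    intro i j
    have := heq i j
    have h' : concurrence 7 N i j * (concurrence 7 N i j - 1) = 0 := by ring_nf; linarith
    rcases mul_eq_zero.1 h' with h' | h'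
    · exact Or.inl h'
    · exact Or.inr (by linarith)
  refine ⟨conc_symm 7 N, conc_nonneg h, fun i j => ?_, fun i => ?_, fun i => ?_, h3⟩
  · rcases h01 i j with h' | h'
    · rw [h']; norm_num
    · rw [h']
  · rcases h01 i i with h' | h'
    · exact h'
    · exfalso
      rw [conc_diag h] at h'
      have hev : (2 : ℤ) ∣ ∑ l, (N i l : ℤ) * ((N i l : ℤ) - 1) :=
        Finset.dvd_sum fun l _ => (Int.even_mul_pred_self _).two_dvd
      rw [h'] at hev
      norm_num at hev
  · rw [conc_row h]; norm_num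

lemma info_eq {N : Matrix (Fin 18) (Fin 63) ℕ} :
    infoMatrix 2 7 N = (1 / 2 : ℝ) • ((7 : ℝ) • (1 : Matrix (Fin 18) (Fin 18) ℝ) -
      Helper693.Core18.re (concurrence 7 N)) := by
  ext i j
  simp only [infoMatrix, Helper693.Core18.re, Matrix.sub_apply, Matrix.smul_apply,
    Matrix.one_apply, Matrix.mul_apply, Matrix.map_apply, Matrix.transpose_apply, smul_eq_mul,
    conc_apply]
  push_cast
  split_ifs <;> ring

/-- the design with the smaller A-value -/
def betterDesign : Matrix (Fin 18) (Fin 63) ℕ := Helper693.Data18.inc Helper693.Data18.edgesY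

lemma better_isDesign : IsDesign 2 7 betterDesign :=
  ⟨Helper693.Data18.incY_row, Helper693.Data18.incY_col⟩

lemma better_value : aValue 2 7 betterDesign = ENNReal.ofReal (598335 / 122584) := by
  rw [aValue, info_eq, ← Helper693.Core18.value_Y]
  have : Helper693.Core18.re (concurrence 7 betterDesign) =
      Matrix.of (fun i j => (Helper693.Data18.adjY i j : ℝ)) := by
    ext i j
    have h := Helper693.Data18.incY_gram i j
    have h' : ((∑ l, betterDesign i l * betterDesign j l : ℕ) : ℤ) =
      ((Helper693.Data18.adjY i j + if i = j then 7 else 0 : ℕ) : ℤ) := by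
      rw [← h]; rfl
    push_cast at h'
    simp only [Helper693.Core18.re, Matrix.map_apply, conc_apply, Matrix.of_apply]
    rw [h']
    push_cast
    split_ifs <;> simp
  rw [this]

/-- a triangle-free witness -/
def bipDesign : Matrix (Fin 18) (Fin 63) ℕ := Helper693.Data18.inc Helper693.Data18.edgesB

lemma bip_isDesign : IsDesign 2 7 bipDesign :=
  ⟨Helper693.Data18.incB_row, Helper693.Data18.incB_col⟩

lemma bip_conc (i j : Fin 18) : concurrence 7 bipDesign i j = (Helper693.Data18.adjB i j : ℤ) := by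
  have h := Helper693.Data18.incB_gram i j
  have h' : ((∑ l, bipDesign i l * bipDesign j l : ℕ) : ℤ) =
      ((Helper693.Data18.adjB i j + if i = j then 7 else 0 : ℕ) : ℤ) := by
    rw [← h]; rfl
  push_cast at h'
  rw [conc_apply, h']
  split_ifs <;> simp

lemma bip_two : closedWalks 7 bipDesign 2 = 126 := by
  rw [walks_two]
  have h := Helper693.Data18.adjB_sq
  have h' : ((∑ i, ∑ j, Helper693.Data18.adjB i j * Helper693.Data18.adjB j i : ℕ) : ℤ) = 126 := by
    rw [h]; rfl
  rw [← h']
  push_cast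
  refine Finset.sum_congr rfl fun i _ => Finset.sum_congr rfl fun j _ => ?_
  rw [← bip_conc, ← bip_conc, conc_symm 7 _ j i, sq]

lemma bip_three : closedWalks 7 bipDesign 3 = 0 := by
  rw [closedWalks, Helper693.Core18.trace_cube]
  have h := Helper693.Data18.adjB_cube
  have h' : ((∑ i, ∑ j, ∑ k, Helper693.Data18.adjB i j * Helper693.Data18.adjB j k *
    Helper693.Data18.adjB k i : ℕ) : ℤ) = 0 := by
    rw [h]; rfl
  rw [← h']
  push_cast
  refine Finset.sum_congr rfl fun i _ => ?_
  rw [Finset.sum_comm]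
  refine Finset.sum_congr rfl fun j _ => Finset.sum_congr rfl fun k _ => ?_
  rw [bip_conc, bip_conc, bip_conc]

lemma minimizer_good {N : Matrix (Fin 18) (Fin 63) ℕ} (h : IsDesign 2 7 N)
    (hm : MinimizesSequentially 2 7 N) : Helper693.Core18.Good (concurrence 7 N) := by
  have hge := walks_two_ge h
  have hge3 := walks_nonneg h 3
  have key : closedWalks 7 N 2 = 126 ∧ closedWalks 7 N 3 = 0 := by
    by_cases hall : ∃ m, 2 ≤ m ∧ closedWalks 7 bipDesign m ≠ closedWalks 7 N m
    · obtain ⟨t, ht2, hbef, hlt⟩ := hm bipDesign bip_isDesign hall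
      by_cases h2 : t = 2
      · subst h2; rw [bip_two] at hlt; omega
      · have e2 := hbef 2 le_rfl (by omega)
        rw [bip_two] at e2
        by_cases h3 : t = 3
        · subst h3; rw [bip_three] at hlt; omega
        · have e3 := hbef 3 (by norm_num) (by omega)
          rw [bip_three] at e3
          exact ⟨e2.symm, e3.symm⟩
    · push Not at hall
      exact ⟨by rw [← hall 2 le_rfl, bip_two], by rw [← hall 3 (by norm_num), bip_three]⟩
  exact good_of_walks h key.1 key.2

/-- Paterson's conjecture is false: for `(v,b,k,r) = (18,63,2,7)` sequential minimizers exist, all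
of them are connected and binary, and none of them is A-optimal. -/
theorem result :
    ¬ PatersonConjecture ∧
    (∃ N : Matrix (Fin 18) (Fin 63) ℕ, IsDesign 2 7 N ∧ MinimizesSequentially 2 7 N) ∧
    (∀ N : Matrix (Fin 18) (Fin 63) ℕ, IsDesign 2 7 N → MinimizesSequentially 2 7 N →
      IsBinary N ∧ IsConnected 7 N ∧ ¬ IsAOptimal 2 7 N) := by
  have hex := exists_minimizer 2 7 bipDesign bip_isDesign
  have hall : ∀ N : Matrix (Fin 18) (Fin 63) ℕ, IsDesign 2 7 N → MinimizesSequentially 2 7 N →
      IsBinary N ∧ IsConnected 7 N ∧ ¬ IsAOptimal 2 7 N := by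
    intro N h hm
    have hg := minimizer_good h hm
    refine ⟨?_, Helper693.Core18.connected hg, ?_⟩
    · intro i j
      have hd := hg.diag i
      rw [conc_diag h] at hd
      have := (Finset.sum_eq_zero_iff_of_nonneg fun l _ => mul_sub_one_nonneg (N i l)).1 hd j
        (mem_univ _)
      rcases mul_eq_zero.1 this with h' | h'
      · left; exact_mod_cast h'
      · right
        have : (N i j : ℤ) = 1 := by linarith
        exact_mod_cast this
    · intro hopt
      have h1 := hopt betterDesign better_isDesign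
      have h2 := Helper693.Core18.lower_bound hg
      rw [← info_eq] at h2
      rw [better_value] at h1
      have h3 : ENNReal.ofReal (923 / 189) ≤ ENNReal.ofReal (598335 / 122584) := h2.trans h1
      rw [ENNReal.ofReal_le_ofReal_iff (by norm_num)] at h3
      norm_num at h3
  refine ⟨?_, hex, hall⟩
  intro hP
  obtain ⟨N, hN, hm⟩ := hex
  obtain ⟨hb, hc, hn⟩ := hall N hN hm
  exact hn ((hP 18 63 2 7 (by norm_num) (by norm_num) (by norm_num) (by norm_num) (by norm_num)
    N hN hb hc).2 hm)

end Pool.Agent.Results.MP_d6bcd1_co.ClosedWalks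

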